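import Mathlib
import Pool.Agent.Helper50_DP.StmtsD
import Pool.Agent.Helper40_PGL.GAlg

/-!
# Squad DP, module STP: a net step preserves good elements
-/

universe u

open MvPolynomial PGH PGL

namespace Pool.Agent.DP.H33

/-- STP -/
theorem stp (hdpg : DpgStmt.{u}) : StpStmt.{u} := by
  obtain ⟨N₁, Φ, hΦ, hmain⟩ := hdpg
  refine ⟨max N₁ 3, Φ, le_max_right _ _, fun N hN => hΦ N ((le_max_left _ _).trans hN), ?_⟩
  intro k M _ _ _ _ _ F₀ F F' hstep hF a ha
  obtain ⟨V, W, N, r, y, L, x, A, m, b, z, hN, hKV, hW, hWc, hLK, hgen, hrel, hred, hval, hram,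
    halg⟩ := hstep.step
  have hKV' : ∀ c : k, algebraMap k M c ∈ V := fun c => hKV ⟨c, rfl⟩
  let _ : Algebra k V := ((algebraMap k M).codRestrict V hKV').toAlgebra
  have : IsScalarTower k V M := IsScalarTower.of_algebraMap_eq (fun c => rfl)
  choose c hc using hLK
  have hcL : ∀ i l, algebraMap k V (c i l) = L i l := fun i l => Subtype.ext (hc i l)
  have hlin : ∀ i, lin (c i) y = lf (L i) y := fun i => by
    unfold lin lf
    exact Finset.sum_congr rfl (fun l _ => by rw [hcL])
  have hgood := hmain k M V F₀ W N r y c x A m b z ((le_max_left _ _).trans hN)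
    (fun w hw e he => hW w hw (algebraMap k V e) ⟨e, rfl⟩
      (by rw [Ne, map_eq_zero]; exact he))
    (fun x hx => by
      obtain ⟨e, he⟩ := hWc x hx
      exact ⟨e, Subtype.ext he⟩)
    (by
      intro h0
      apply hgen
      have h1 : algebraMap k V (aeval (fun p : Fin N × Fin 3 => c p.1 p.2) (Φ N)) =
          aeval (fun p : Fin N × Fin 3 => L p.1 p.2) (Φ N) := by
        have h2 : (fun p : Fin N × Fin 3 => L p.1 p.2) =
            fun p : Fin N × Fin 3 => algebraMap k V (c p.1 p.2) := by
          funext p
          rw [hcL]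
        rw [h2, aeval_def, aeval_def, eval₂_eq', eval₂_eq', map_sum]
        refine Finset.sum_congr rfl fun s _ => ?_
        rw [map_mul, map_prod]
        congr 1
        · simp
        · refine Finset.prod_congr rfl fun p _ => ?_
          rw [map_pow]
      rw [← h1, h0, map_zero])
    (by
      intro d p hp h0
      have h1 : (MvPolynomial.map (algebraMap k V) p) = 0 := by
        refine hrel d _ (hp.map _) (fun s => ?_) ?_
        · rw [coeff_map]
          exact ⟨p.coeff s, rfl⟩
        · rw [aeval_def, eval₂_map]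
          rw [aeval_def] at h0
          rw [← h0]
          rfl
      exact (MvPolynomial.map_injective _ (algebraMap k V).injective) (by rw [h1, map_zero]))
    (fun w hw i j => by rw [hlin]; exact hred w hw i j)
    (fun j => by
      obtain ⟨h1, h2, h3, h4, h5⟩ := hval j
      refine ⟨hF _ h1, ?_, h3, h4, h5⟩
      rw [← h2]
      refine Finset.prod_congr rfl fun i _ => ?_
      rw [hlin]
      rfl)
    hram
  refine (gAlg k M F₀).2.2 _ ?_ a (halg a ha)
  rintro s (hs | ⟨i, j, rfl⟩)
  · exact hF s hs
  · exact hgood i j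

end Pool.Agent.DP.H33
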